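import Mathlib

/-!
# MP_904b2a_gt, module SPH-B: homological algebra of short exact sequences of complexes
with a degreewise splitting
-/

set_option autoImplicit false

namespace Pool.Agent.Lib.MP_904b2a_gt.H86

/-- Cycles of a non-negatively graded complex. -/
def Cyc {C : ℕ → Type} [∀ n, AddCommGroup (C n)] (d : ∀ n, C (n + 1) →ₗ[ℤ] C n) :
    ∀ n, C n → Prop
  | 0, _ => True
  | n + 1, x => d n x = 0

/-- Exactness in degree `n`. -/
def Ex {C : ℕ → Type} [∀ n, AddCommGroup (C n)] (d : ∀ n, C (n + 1) →ₗ[ℤ] C n) (n : ℕ) : Prop :=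
  ∀ x, Cyc d n x → ∃ y, d n y = x

/-- In degree `n` there is a functional which vanishes on boundaries and detects the cycles
which are not boundaries. -/
def Det {C : ℕ → Type} [∀ n, AddCommGroup (C n)] (d : ∀ n, C (n + 1) →ₗ[ℤ] C n) (n : ℕ) : Prop :=
  ∃ c : C n →ₗ[ℤ] ℤ, (∀ y, c (d n y) = 0) ∧ ∀ z, Cyc d n z → c z = 0 → ∃ y, d n y = z

/-- The homology is concentrated in degree `N`, where it is detected by a functional. -/
def HS {C : ℕ → Type} [∀ n, AddCommGroup (C n)] (d : ∀ n, C (n + 1) →ₗ[ℤ] C n) (N : ℕ) : Prop :=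
  (∀ n, n ≠ N → Ex d n) ∧ Det d N

/-- A contraction of a complex. -/
def Contraction {C : ℕ → Type} [∀ n, AddCommGroup (C n)] (d : ∀ n, C (n + 1) →ₗ[ℤ] C n)
    (h : ∀ n, C n →ₗ[ℤ] C (n + 1)) : Prop :=
  (∀ x, d 0 (h 0 x) = x) ∧ ∀ n x, d (n + 1) (h (n + 1) x) + h n (d n x) = x

/-- A short exact sequence of complexes which splits degreewise. -/
structure SES (A P Q : ℕ → Type) [∀ n, AddCommGroup (A n)] [∀ n, AddCommGroup (P n)]
    [∀ n, AddCommGroup (Q n)] (dA : ∀ n, A (n + 1) →ₗ[ℤ] A n) (dP : ∀ n, P (n + 1) →ₗ[ℤ] P n)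
    (dQ : ∀ n, Q (n + 1) →ₗ[ℤ] Q n) where
  i : ∀ n, A n →ₗ[ℤ] P n
  q : ∀ n, P n →ₗ[ℤ] Q n
  s : ∀ n, Q n →ₗ[ℤ] P n
  r : ∀ n, P n →ₗ[ℤ] A n
  ri : ∀ n x, r n (i n x) = x
  qs : ∀ n x, q n (s n x) = x
  qi : ∀ n x, q n (i n x) = 0
  sum : ∀ n x, i n (r n x) + s n (q n x) = x
  di : ∀ n x, dP n (i (n + 1) x) = i n (dA n x)
  dq : ∀ n x, q n (dP n x) = dQ n (q (n + 1) x)
  dd : ∀ n x, dP n (dP (n + 1) x) = 0

section

variable {A P Q : ℕ → Type} [∀ n, AddCommGroup (A n)] [∀ n, AddCommGroup (P n)]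
  [∀ n, AddCommGroup (Q n)] {dA : ∀ n, A (n + 1) →ₗ[ℤ] A n} {dP : ∀ n, P (n + 1) →ₗ[ℤ] P n}
  {dQ : ∀ n, Q (n + 1) →ₗ[ℤ] Q n} (S : SES A P Q dA dP dQ)

namespace SES

include S

theorem i_inj {n : ℕ} {x : A n} (h : S.i n x = 0) : x = 0 := by
  rw [← S.ri n x, h, map_zero]

theorem eq_i {n : ℕ} {x : P n} (h : S.q n x = 0) : x = S.i n (S.r n x) := by
  conv_lhs => rw [← S.sum n x, h, map_zero, add_zero]

theorem cyc_i {n : ℕ} {x : A n} : Cyc dP n (S.i n x) ↔ Cyc dA n x := by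
  cases n with
  | zero => exact Iff.rfl
  | succ n =>
    change dP n (S.i (n + 1) x) = 0 ↔ dA n x = 0
    rw [S.di]
    exact ⟨fun h => S.i_inj h, fun h => by rw [h, map_zero]⟩

theorem cyc_q {n : ℕ} {x : P n} (h : Cyc dP n x) : Cyc dQ n (S.q n x) := by
  cases n with
  | zero => trivial
  | succ n =>
    change dQ n (S.q (n + 1) x) = 0
    rw [← S.dq, show dP n x = 0 from h, map_zero]

theorem cyc_sub {n : ℕ} {x : P n} (y : P (n + 1)) (h : Cyc dP n x) : Cyc dP n (x - dP n y) := by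
  cases n with
  | zero => trivial
  | succ n =>
    change dP n (x - dP (n + 1) y) = 0
    rw [map_sub, S.dd, show dP n x = 0 from h, sub_zero]

theorem ddA (n : ℕ) (x : A (n + 2)) : dA n (dA (n + 1) x) = 0 := by
  apply S.i_inj
  rw [← S.di, ← S.di, S.dd]

/-- `d (s y) = i (r (d (s y))) + s (d y)`. -/
theorem ds (n : ℕ) (y : Q (n + 1)) :
    dP n (S.s (n + 1) y) = S.i n (S.r n (dP n (S.s (n + 1) y))) + S.s n (dQ n y) := by
  conv_lhs => rw [← S.sum n (dP n (S.s (n + 1) y)), S.dq, S.qs]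

/-- The connecting map. -/
def om (n : ℕ) : Q (n + 1) →ₗ[ℤ] A n := (S.r n).comp ((dP n).comp (S.s (n + 1)))

theorem om_apply (n : ℕ) (y : Q (n + 1)) : S.om n y = S.r n (dP n (S.s (n + 1) y)) := rfl

theorem ds' (n : ℕ) (y : Q (n + 1)) :
    dP n (S.s (n + 1) y) = S.i n (S.om n y) + S.s n (dQ n y) := S.ds n y

theorem om_d (n : ℕ) (y : Q (n + 2)) : S.om n (dQ (n + 1) y) = - dA n (S.om (n + 1) y) := by
  have h := S.ds' (n + 1) y
  have h2 : dP n (dP (n + 1) (S.s (n + 2) y)) = 0 := S.dd n _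
  rw [h, map_add, S.di, S.ds' n (dQ (n + 1) y)] at h2
  have h3 := congrArg (S.r n) h2
  have h4 : ∀ z, S.r n (S.s n z) = 0 := by
    intro z
    apply S.i_inj
    have := S.sum n (S.s n z)
    rw [S.qs] at this
    simpa using this
  rw [map_add, map_add, map_zero, S.ri, S.ri, h4, add_zero] at h3
  exact eq_neg_of_add_eq_zero_right h3

theorem cyc_om {n : ℕ} {y : Q (n + 1)} (hy : dQ n y = 0) : Cyc dA n (S.om n y) := by
  cases n with
  | zero => trivial
  | succ n =>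
    change dA n (S.om (n + 1) y) = 0
    have := S.om_d n y
    rw [hy, map_zero] at this
    exact neg_eq_zero.mp this.symm

theorem susp {N : ℕ} (hP : ∀ n, Ex dP n) (hA : HS dA N) : HS dQ (N + 1) := by
  refine ⟨fun n hn x hx => ?_, ?_⟩
  · cases n with
    | zero =>
      obtain ⟨y, hy⟩ := hP 0 (S.s 0 x) trivial
      exact ⟨S.q 1 y, by rw [← S.dq, hy, S.qs]⟩
    | succ n =>
      have hx' : dQ n x = 0 := hx
      obtain ⟨v, hv⟩ := hA.1 n (by omega) (S.om n x) (S.cyc_om hx')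
      obtain ⟨y, hy⟩ := hP (n + 1) (S.s (n + 1) x - S.i (n + 1) v) (by
        change dP n _ = 0
        rw [map_sub, S.ds', hx', S.di, hv, map_zero, add_zero, sub_self])
      refine ⟨S.q (n + 2) y, ?_⟩
      rw [← S.dq, hy, map_sub, S.qs, S.qi, sub_zero]
  · obtain ⟨c, hc, hc'⟩ := hA.2
    refine ⟨c.comp (S.om N), fun y => ?_, fun z hz hcz => ?_⟩
    · rw [LinearMap.comp_apply, S.om_d, map_neg, hc, neg_zero]
    · have hz' : dQ N z = 0 := hz
      obtain ⟨v, hv⟩ := hc' (S.om N z) (S.cyc_om hz') hcz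
      obtain ⟨y, hy⟩ := hP (N + 1) (S.s (N + 1) z - S.i (N + 1) v) (by
        change dP N _ = 0
        rw [map_sub, S.ds', hz', S.di, hv, map_zero, add_zero, sub_self])
      refine ⟨S.q (N + 2) y, ?_⟩
      rw [← S.dq, hy, map_sub, S.qs, S.qi, sub_zero]

/-- A cycle of `P` is homologous to the image of a cycle of `A` if its image in `Q` bounds. -/
theorem lift_cyc {n : ℕ} {z : P n} (hz : Cyc dP n z) {b : Q (n + 1)} (hb : dQ n b = S.q n z) :
    ∃ w : A n, Cyc dA n w ∧ z = dP n (S.s (n + 1) b) + S.i n w := by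
  have h0 : S.q n (z - dP n (S.s (n + 1) b)) = 0 := by
    rw [map_sub, S.dq, S.qs, hb, sub_self]
  refine ⟨S.r n (z - dP n (S.s (n + 1) b)), ?_, ?_⟩
  · rw [← S.cyc_i, ← S.eq_i h0]
    exact S.cyc_sub _ hz
  · rw [← S.eq_i h0]
    abel

theorem ofSub {N : ℕ} (hQ : ∀ n, Ex dQ n) {h : ∀ n, Q n →ₗ[ℤ] Q (n + 1)}
    (hh : Contraction dQ h) (hA : HS dA N) : HS dP N := by
  refine ⟨fun n hn z hz => ?_, ?_⟩
  · obtain ⟨b, hb⟩ := hQ n _ (S.cyc_q hz)
    obtain ⟨w, hw, e⟩ := S.lift_cyc hz hb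
    obtain ⟨v, rfl⟩ := hA.1 n hn w hw
    exact ⟨S.s (n + 1) b + S.i (n + 1) v, by rw [map_add, S.di, e]⟩
  · obtain ⟨c, hc, hc'⟩ := hA.2
    refine ⟨c.comp (S.r N) - ((c.comp (S.om N)).comp (h N)).comp (S.q N), fun y => ?_,
      fun z hz hcz => ?_⟩
    · simp only [LinearMap.sub_apply, LinearMap.comp_apply]
      rw [S.dq]
      have e1 : S.r N (dP N y) = dA N (S.r (N + 1) y) + S.om N (S.q (N + 1) y) := by
        conv_lhs => rw [← S.sum (N + 1) y]
        rw [map_add, map_add, S.di, S.ri, S.om_apply]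
      have e2 : h N (dQ N (S.q (N + 1) y)) =
          S.q (N + 1) y - dQ (N + 1) (h (N + 1) (S.q (N + 1) y)) :=
        eq_sub_of_add_eq' (hh.2 N (S.q (N + 1) y))
      rw [e1, e2, map_add, hc, zero_add, map_sub, S.om_d, map_sub, map_neg, hc, neg_zero, sub_zero,
        sub_self]
    · obtain ⟨b, hb⟩ := hQ N _ (S.cyc_q hz)
      obtain ⟨w, hw, e⟩ := S.lift_cyc hz hb
      have hbd : ∀ y, (c.comp (S.r N) - ((c.comp (S.om N)).comp (h N)).comp (S.q N)) (dP N y)
          = 0 := by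
        intro y
        simp only [LinearMap.sub_apply, LinearMap.comp_apply]
        rw [S.dq]
        have e1 : S.r N (dP N y) = dA N (S.r (N + 1) y) + S.om N (S.q (N + 1) y) := by
          conv_lhs => rw [← S.sum (N + 1) y]
          rw [map_add, map_add, S.di, S.ri, S.om_apply]
        have e2 : h N (dQ N (S.q (N + 1) y)) =
            S.q (N + 1) y - dQ (N + 1) (h (N + 1) (S.q (N + 1) y)) :=
          eq_sub_of_add_eq' (hh.2 N (S.q (N + 1) y))
        rw [e1, e2, map_add, hc, zero_add, map_sub, S.om_d, map_sub, map_neg, hc, neg_zero,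
          sub_zero, sub_self]
      rw [e, map_add, hbd, zero_add] at hcz
      simp only [LinearMap.sub_apply, LinearMap.comp_apply, S.ri, S.qi, map_zero, sub_zero] at hcz
      obtain ⟨v, rfl⟩ := hc' w hw hcz
      exact ⟨S.s (N + 1) b + S.i (N + 1) v, by rw [map_add, S.di, e]⟩

theorem ofQuot {N : ℕ} (hA : ∀ n, Ex dA n) (hQ : HS dQ N) : HS dP N := by
  refine ⟨fun n hn z hz => ?_, ?_⟩
  · obtain ⟨b, hb⟩ := hQ.1 n hn _ (S.cyc_q hz)
    obtain ⟨w, hw, e⟩ := S.lift_cyc hz hb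
    obtain ⟨v, rfl⟩ := hA n w hw
    exact ⟨S.s (n + 1) b + S.i (n + 1) v, by rw [map_add, S.di, e]⟩
  · obtain ⟨c, hc, hc'⟩ := hQ.2
    refine ⟨c.comp (S.q N), fun y => ?_, fun z hz hcz => ?_⟩
    · rw [LinearMap.comp_apply, S.dq, hc]
    · obtain ⟨b, hb⟩ := hc' _ (S.cyc_q hz) hcz
      obtain ⟨w, hw, e⟩ := S.lift_cyc hz hb
      obtain ⟨v, rfl⟩ := hA N w hw
      exact ⟨S.s (N + 1) b + S.i (N + 1) v, by rw [map_add, S.di, e]⟩

theorem toQuot {N : ℕ} {h : ∀ n, A n →ₗ[ℤ] A (n + 1)}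
    (hh : Contraction dA h) (hP : HS dP (N + 1)) : HS dQ (N + 1) := by
  -- the lift of cycles
  have key : ∀ n, ∀ x : Q (n + 1), dQ n x = 0 →
      dP n (S.s (n + 1) x - S.i (n + 1) (h n (S.om n x))) = 0 := by
    intro n x hx
    rw [map_sub, S.ds', hx, map_zero, add_zero, S.di]
    have : dA n (h n (S.om n x)) = S.om n x := by
      cases n with
      | zero => exact hh.1 _
      | succ n =>
        have h1 := hh.2 n (S.om (n + 1) x)
        have h2 : dA n (S.om (n + 1) x) = 0 := S.cyc_om hx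
        rw [h2, map_zero, add_zero] at h1
        exact h1
    rw [this, sub_self]
  refine ⟨fun n hn x hx => ?_, ?_⟩
  · cases n with
    | zero =>
      obtain ⟨y, hy⟩ := hP.1 0 hn (S.s 0 x) trivial
      exact ⟨S.q 1 y, by rw [← S.dq, hy, S.qs]⟩
    | succ n =>
      obtain ⟨y, hy⟩ := hP.1 (n + 1) hn _ (key n x hx)
      exact ⟨S.q (n + 2) y, by rw [← S.dq, hy, map_sub, S.qs, S.qi, sub_zero]⟩
  · obtain ⟨c, hc, hc'⟩ := hP.2
    refine ⟨c.comp (S.s (N + 1) - (S.i (N + 1)).comp ((h N).comp (S.om N))), fun y => ?_,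
      fun z hz hcz => ?_⟩
    · simp only [LinearMap.sub_apply, LinearMap.comp_apply]
      have e1 : S.s (N + 1) (dQ (N + 1) y) =
          dP (N + 1) (S.s (N + 2) y) - S.i (N + 1) (S.om (N + 1) y) :=
        eq_sub_of_add_eq' (S.ds' (N + 1) y).symm
      have e2 : S.i (N + 1) (h N (dA N (S.om (N + 1) y))) =
          S.i (N + 1) (S.om (N + 1) y) -
            dP (N + 1) (S.i (N + 2) (h (N + 1) (S.om (N + 1) y))) := by
        rw [S.di, ← map_sub]
        congr 1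
        exact eq_sub_of_add_eq' (hh.2 N (S.om (N + 1) y))
      rw [e1, S.om_d, map_neg, map_neg, e2, sub_neg_eq_add, sub_add_sub_cancel, map_sub, hc, hc,
        sub_self]
    · obtain ⟨y, hy⟩ := hc' _ (key N z hz) hcz
      exact ⟨S.q (N + 2) y, by rw [← S.dq, hy, map_sub, S.qs, S.qi, sub_zero]⟩

end SES

end

/-- The type of the partial contractions. -/
def Part {B : ℕ → Type} (d : ∀ n, (B (n + 1) →₀ ℤ) →ₗ[ℤ] (B n →₀ ℤ)) (n : ℕ) : Type :=
  {k : (B n →₀ ℤ) →ₗ[ℤ] (B (n + 1) →₀ ℤ) // ∀ x, d n (k (d n x)) = d n x}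

/-- Exact complexes of free modules have a contraction. -/
theorem exists_contraction {B : ℕ → Type} (d : ∀ n, (B (n + 1) →₀ ℤ) →ₗ[ℤ] (B n →₀ ℤ))
    (hdd : ∀ n x, d n (d (n + 1) x) = 0) (hex : ∀ n, Ex (C := fun n => B n →₀ ℤ) d n) :
    ∃ h : ∀ n, (B n →₀ ℤ) →ₗ[ℤ] (B (n + 1) →₀ ℤ), Contraction (C := fun n => B n →₀ ℤ) d h := by
  classical
  -- first step
  have h0 : ∃ h : (B 0 →₀ ℤ) →ₗ[ℤ] (B 1 →₀ ℤ), ∀ x, d 0 (h x) = x := by
    choose g hg using fun b : B 0 => hex 0 (Finsupp.single b 1) trivial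
    refine ⟨Finsupp.linearCombination ℤ g, fun x => ?_⟩
    have : (d 0).comp (Finsupp.linearCombination ℤ g) = LinearMap.id := by
      apply Finsupp.lhom_ext'
      intro b
      apply LinearMap.ext_ring
      simp [hg]
    exact LinearMap.congr_fun this x
  obtain ⟨k0, hk0⟩ := h0
  -- the inductive step
  have step : ∀ n (k : Part d n),
      ∃ k' : Part d (n + 1), ∀ x, d (n + 1) (k'.1 x) + k.1 (d n x) = x := by
    intro n k
    have hc : ∀ b : B (n + 1), Cyc (C := fun n => B n →₀ ℤ) d (n + 1)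
        (Finsupp.single b (1 : ℤ) - k.1 (d n (Finsupp.single b 1))) := by
      intro b
      change d n _ = 0
      rw [map_sub, k.2, sub_self]
    choose g hg using fun b : B (n + 1) => hex (n + 1) _ (hc b)
    have H : ∀ x, d (n + 1) (Finsupp.linearCombination ℤ g x) + k.1 (d n x) = x := by
      intro x
      have : (d (n + 1)).comp (Finsupp.linearCombination ℤ g) + k.1.comp (d n) =
          LinearMap.id := by
        apply Finsupp.lhom_ext'
        intro b
        apply LinearMap.ext_ring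
        simp only [LinearMap.comp_apply, LinearMap.add_apply, Finsupp.lsingle_apply,
          Finsupp.linearCombination_single, one_smul, LinearMap.id_apply]
        rw [hg]
        abel
      exact LinearMap.congr_fun this x
    refine ⟨⟨Finsupp.linearCombination ℤ g, fun x => ?_⟩, H⟩
    have := H (d (n + 1) x)
    rwa [hdd, map_zero, add_zero] at this
  choose st hst using step
  let f : ∀ n, Part d n := fun n => Nat.rec ⟨k0, fun x => hk0 _⟩ (fun n k => st n k) n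
  exact ⟨fun n => (f n).1, hk0, fun n x => hst n (f n) x⟩

end Pool.Agent.Lib.MP_904b2a_gt.H86
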