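import Pool.Agent.Lib.MP_904b2a_gt.H68.Ch
import Pool.Agent.Lib.MP_904b2a_gt.H86.Complex

/-!
# MP_904b2a_gt, module SPH-B: the homology of algebraic spheres
-/

set_option autoImplicit false

open scoped BigOperators

namespace Pool.Agent.Lib.MP_904b2a_gt.H86

noncomputable section

open PSS

theorem bd_bd (K : PSS) (n : ℕ) (x : K.B (n + 2) →₀ ℤ) : K.bd n (K.bd (n + 1) x) = 0 := by
  rw [K.bd_apply68 (n + 1), map_sum]
  have := face_sum (n + 1) (fun i j => K.dZ n i (K.dZ (n + 1) j x))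
    (fun i j hij hj => by
      rw [K.dZ_dZ68 n i j hij hj])
  rw [← this]
  refine Finset.sum_congr rfl (fun j _ => ?_)
  rw [map_smul, K.bd_apply68, Finset.smul_sum]
  refine Finset.sum_congr rfl (fun i _ => ?_)
  rw [smul_smul, ← pow_add, add_comm j i]

theorem bd_ch (K : PSS) (n : ℕ) (x : K.K (n + 1)) :
    K.bd n (K.ch (n + 1) x) = ∑ i ∈ Finset.range (n + 2), (-1 : ℤ) ^ i • K.ch n (K.d n i x) := by
  rw [K.bd_apply68]
  refine Finset.sum_congr rfl (fun i hi => ?_)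
  rw [K.dZ_ch n i (by have := Finset.mem_range.mp hi; omega)]

/-! ### Simplicial maps -/

/-- The chain map of a map of simplices. -/
def mp {K K' : PSS} (φ : ∀ n, K.K n → K'.K n) (n : ℕ) : (K.B n →₀ ℤ) →ₗ[ℤ] (K'.B n →₀ ℤ) :=
  Finsupp.linearCombination ℤ (fun b => K'.ch n (φ n b.1))

theorem mp_ch {K K' : PSS} (φ : ∀ n, K.K n → K'.K n) (h : ∀ n, φ n (K.pt n) = K'.pt n) (n : ℕ)
    (x : K.K n) : mp φ n (K.ch n x) = K'.ch n (φ n x) :=
  K.lc_ch (fun x => K'.ch n (φ n x)) (by rw [h, K'.ch_pt68]) x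

theorem mp_bd {K K' : PSS} (φ : ∀ n, K.K n → K'.K n) (h : ∀ n, φ n (K.pt n) = K'.pt n)
    (hd : ∀ n i x, i ≤ n + 1 → φ n (K.d n i x) = K'.d n i (φ (n + 1) x)) (n : ℕ)
    (x : K.B (n + 1) →₀ ℤ) : mp φ n (K.bd n x) = K'.bd n (mp φ (n + 1) x) := by
  have e : (mp φ n).comp (K.bd n) = (K'.bd n).comp (mp φ (n + 1)) := by
    apply K.hom_ext_ch
    intro x
    rw [LinearMap.comp_apply, LinearMap.comp_apply, mp_ch φ h, bd_ch, bd_ch, map_sum]
    refine Finset.sum_congr rfl (fun i hi => ?_)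
    rw [map_smul, mp_ch φ h, hd n i x (by have := Finset.mem_range.mp hi; omega)]
  exact LinearMap.congr_fun e x

/-! ### The short exact sequence of a simplicial subset -/

section

variable {K : PSS} (L : K.Sub)

theorem q_d (n i : ℕ) (hi : i ≤ n + 1) (y : K.K (n + 1)) :
    L.q n (K.d n i y) = (K.quot L).d n i (L.q (n + 1) y) := by
  by_cases hy : L.P (n + 1) y
  · rw [L.q_of_mem hy, L.q_of_mem (L.d_mem n i y hi hy)]
    rfl
  · rw [L.q_of_not_mem ⟨y, hy⟩]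
    change _ = (if i ≤ n + 1 then L.q n (K.d n i y) else none)
    rw [if_pos hi]

/-- The section on chains. -/
def sMap (n : ℕ) : ((K.quot L).B n →₀ ℤ) →ₗ[ℤ] (K.B n →₀ ℤ) :=
  Finsupp.linearCombination ℤ (fun b => (b.1 : Option {x : K.K n // ¬ L.P n x}).elim 0
    (fun y => K.ch n y.1))

theorem sMap_ch (n : ℕ) (o : (K.quot L).K n) : sMap L n ((K.quot L).ch n o) =
    (show Option {x : K.K n // ¬ L.P n x} from o).elim 0 (fun y => K.ch n y.1) :=
  (K.quot L).lc_ch (fun o => (show Option {x : K.K n // ¬ L.P n x} from o).elim 0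
    (fun y => K.ch n y.1)) rfl o

open Classical in
/-- The retraction on chains. -/
def rMap (n : ℕ) : (K.B n →₀ ℤ) →ₗ[ℤ] (L.toPSS.B n →₀ ℤ) :=
  Finsupp.linearCombination ℤ (fun b => if h : L.P n b.1 then L.toPSS.ch n ⟨b.1, h⟩ else 0)

open Classical in
theorem rMap_ch (n : ℕ) (x : K.K n) : rMap L n (K.ch n x) =
    if h : L.P n x then L.toPSS.ch n ⟨x, h⟩ else 0 :=
  K.lc_ch (fun x => if h : L.P n x then L.toPSS.ch n ⟨x, h⟩ else 0) (by
    rw [dif_pos (L.pt_mem n)]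
    exact L.toPSS.ch_pt68 n) x

/-- The inclusion. -/
def iMap (n : ℕ) : (L.toPSS.B n →₀ ℤ) →ₗ[ℤ] (K.B n →₀ ℤ) :=
  mp (K := L.toPSS) (K' := K) (fun _ x => x.1) n

theorem iMap_ch (n : ℕ) (x : L.toPSS.K n) : iMap L n (L.toPSS.ch n x) = K.ch n x.1 :=
  mp_ch (K := L.toPSS) (K' := K) (fun _ x => x.1) (fun _ => rfl) n x

/-- The projection. -/
def qMap (n : ℕ) : (K.B n →₀ ℤ) →ₗ[ℤ] ((K.quot L).B n →₀ ℤ) :=
  mp (K := K) (K' := K.quot L) (fun n x => L.q n x) n

theorem qMap_ch (n : ℕ) (x : K.K n) : qMap L n (K.ch n x) = (K.quot L).ch n (L.q n x) :=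
  mp_ch (K := K) (K' := K.quot L) (fun n x => L.q n x) (fun n => L.q_of_mem (L.pt_mem n)) n x

/-- The short exact sequence of a simplicial subset. -/
def ses : SES (fun n => L.toPSS.B n →₀ ℤ) (fun n => K.B n →₀ ℤ) (fun n => (K.quot L).B n →₀ ℤ)
    L.toPSS.bd K.bd (K.quot L).bd where
  i := iMap L
  q := qMap L
  s := sMap L
  r := rMap L
  ri n x := by
    have e : (rMap L n).comp (iMap L n) = LinearMap.id := by
      apply L.toPSS.hom_ext_ch
      intro x
      rw [LinearMap.comp_apply, iMap_ch, rMap_ch, dif_pos x.2]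
      rfl
    exact LinearMap.congr_fun e x
  qs n x := by
    have e : (qMap L n).comp (sMap L n) = LinearMap.id := by
      apply (K.quot L).hom_ext_ch
      intro x
      rw [LinearMap.comp_apply, sMap_ch]
      rcases x with _ | x
      · rw [Option.elim_none, map_zero]
        exact ((K.quot L).ch_pt68 n).symm
      · rw [Option.elim_some, qMap_ch, L.q_of_not_mem]
        rfl
    exact LinearMap.congr_fun e x
  qi n x := by
    have e : (qMap L n).comp (iMap L n) = 0 := by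
      apply L.toPSS.hom_ext_ch
      intro x
      rw [LinearMap.comp_apply, iMap_ch, qMap_ch, L.q_of_mem x.2]
      exact (K.quot L).ch_pt68 n
    exact LinearMap.congr_fun e x
  sum n x := by
    have e : (iMap L n).comp (rMap L n) + (sMap L n).comp (qMap L n) = LinearMap.id := by
      apply K.hom_ext_ch
      intro x
      rw [LinearMap.add_apply, LinearMap.comp_apply, LinearMap.comp_apply, rMap_ch, qMap_ch,
        sMap_ch]
      by_cases hx : L.P n x
      · rw [dif_pos hx, L.q_of_mem hx, iMap_ch, Option.elim_none, add_zero]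
        rfl
      · rw [dif_neg hx, L.q_of_not_mem ⟨x, hx⟩, map_zero, Option.elim_some, zero_add]
        rfl
    exact LinearMap.congr_fun e x
  di n x := (mp_bd (K := L.toPSS) (K' := K) (fun _ x => x.1) (fun _ => rfl) (fun n i x hi => by
    change ((if h : i ≤ n + 1 then ⟨K.d n i x.1, L.d_mem n i x.1 h x.2⟩ else
      ⟨K.pt n, L.pt_mem n⟩ : {x : K.K n // L.P n x})).1 = _
    rw [dif_pos hi]) n x).symm
  dq n x := mp_bd (K := K) (K' := K.quot L) (fun n x => L.q n x)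
    (fun n => L.q_of_mem (L.pt_mem n)) (fun n i x hi => q_d L n i hi x) n x
  dd n x := bd_bd K n x

end

/-! ### Acyclic -/

theorem Acyclic.ex {K : PSS} (h : K.Acyclic) : ∀ n, Ex (C := fun n => K.B n →₀ ℤ) K.bd n
  | 0 => fun x _ => h.1 x
  | n + 1 => fun x hx => h.2 n x hx

theorem Acyclic.contraction {K : PSS} (h : K.Acyclic) :
    ∃ k : ∀ n, (K.B n →₀ ℤ) →ₗ[ℤ] (K.B (n + 1) →₀ ℤ),
      Contraction (C := fun n => K.B n →₀ ℤ) K.bd k :=
  exists_contraction K.bd (bd_bd K) (Acyclic.ex h)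

/-! ### Transport -/

theorem HS.transport {C D : ℕ → Type} [∀ n, AddCommGroup (C n)] [∀ n, AddCommGroup (D n)]
    {dC : ∀ n, C (n + 1) →ₗ[ℤ] C n} {dD : ∀ n, D (n + 1) →ₗ[ℤ] D n}
    (f : ∀ n, C n →ₗ[ℤ] D n) (g : ∀ n, D n →ₗ[ℤ] C n) (hfg : ∀ n x, f n (g n x) = x)
    (hf : ∀ n x, f n (dC n x) = dD n (f (n + 1) x))
    (hg : ∀ n x, g n (dD n x) = dC n (g (n + 1) x)) {N : ℕ} (h : HS dC N) : HS dD N := by
  have hcyc : ∀ n x, Cyc dD n x → Cyc dC n (g n x) := by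
    intro n x hx
    cases n with
    | zero => trivial
    | succ n =>
      change dC n (g (n + 1) x) = 0
      rw [← hg, show dD n x = 0 from hx, map_zero]
  refine ⟨fun n hn x hx => ?_, ?_⟩
  · obtain ⟨y, hy⟩ := h.1 n hn (g n x) (hcyc n x hx)
    exact ⟨f (n + 1) y, by rw [← hf, hy, hfg]⟩
  · obtain ⟨c, hc, hc'⟩ := h.2
    refine ⟨c.comp (g N), fun y => ?_, fun z hz hcz => ?_⟩
    · rw [LinearMap.comp_apply, hg, hc]
    · obtain ⟨y, hy⟩ := hc' (g N z) (hcyc N z hz) hcz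
      exact ⟨f (N + 1) y, by rw [← hf, hy, hfg]⟩

theorem iso_hs {K K' : PSS} (e : Iso K K') {N : ℕ} (h : HS (C := fun n => K.B n →₀ ℤ) K.bd N) :
    HS (C := fun n => K'.B n →₀ ℤ) K'.bd N := by
  have hsd : ∀ n i x, i ≤ n + 1 → (e.e n).symm (K'.d n i x) = K.d n i ((e.e (n + 1)).symm x) := by
    intro n i x hi
    rw [Equiv.symm_apply_eq, e.map_d n i _ hi, Equiv.apply_symm_apply]
  have hsp : ∀ n, (e.e n).symm (K'.pt n) = K.pt n := by
    intro n
    rw [Equiv.symm_apply_eq, e.map_pt]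
  refine HS.transport (C := fun n => K.B n →₀ ℤ) (D := fun n => K'.B n →₀ ℤ)
    (mp (fun n => e.e n)) (mp (fun n => (e.e n).symm)) (fun n x => ?_)
    (mp_bd _ e.map_pt e.map_d) (mp_bd _ hsp hsd) h
  have E : (mp (K := K) (K' := K') (fun n => e.e n) n).comp
      (mp (K := K') (K' := K) (fun n => (e.e n).symm) n) = LinearMap.id := by
    apply K'.hom_ext_ch
    intro x
    rw [LinearMap.comp_apply, mp_ch _ hsp, mp_ch _ e.map_pt, Equiv.apply_symm_apply]
    rfl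
  exact LinearMap.congr_fun E x

/-! ### The zero-sphere -/

theorem alt_sum' (n : ℕ) : ∑ i ∈ Finset.range n, (-1 : ℤ) ^ i = if Even n then 0 else 1 := by
  induction n with
  | zero => simp
  | succ n ih =>
    rw [Finset.sum_range_succ, ih]
    rcases Nat.even_or_odd n with h | h
    · rw [if_pos h, if_neg (by rw [Nat.not_even_iff_odd]; exact h.add_one), h.neg_one_pow]
      simp
    · rw [if_neg (by rwa [Nat.not_even_iff_odd]), if_pos h.add_one, h.neg_one_pow]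
      simp

theorem s0_hs {K : PSS} (h : IsS0 K) : HS (C := fun n => K.B n →₀ ℤ) K.bd 0 := by
  choose b hb hu using h.1
  have hub : ∀ n (x : K.B n), x = ⟨b n, hb n⟩ := fun n x => Subtype.ext (hu n x.1 x.2)
  have hrep : ∀ n (x : K.B n →₀ ℤ), x = x ⟨b n, hb n⟩ • K.ch n (b n) := by
    intro n x
    rw [K.ch_of_ne68 ⟨b n, hb n⟩, Finsupp.smul_single, smul_eq_mul, mul_one]
    ext y
    rw [hub n y, Finsupp.single_eq_same]
  have hbd : ∀ n, K.bd n (K.ch (n + 1) (b (n + 1))) = if Even n then 0 else K.ch n (b n) := by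
    intro n
    rw [bd_ch]
    have : ∀ i ∈ Finset.range (n + 2), (-1 : ℤ) ^ i • K.ch n (K.d n i (b (n + 1))) =
        (-1 : ℤ) ^ i • K.ch n (b n) := by
      intro i hi
      rw [hu n _ (h.2 n i (b (n + 1)) (by have := Finset.mem_range.mp hi; omega) (hb (n + 1)))]
    rw [Finset.sum_congr rfl this, ← Finset.sum_smul, alt_sum']
    have h2 : Even (n + 2) ↔ Even n := by
      rw [Nat.even_add]
      simp
    simp only [h2]
    split_ifs
    · simp
    · simp
  have hne : ∀ n (c : ℤ), c • K.ch n (b n) = 0 → c = 0 := by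
    intro n c hc
    rw [K.ch_of_ne68 ⟨b n, hb n⟩, Finsupp.smul_single, smul_eq_mul, mul_one] at hc
    exact Finsupp.single_eq_zero.mp hc
  refine ⟨fun n hn x hx => ?_, ?_⟩
  · obtain ⟨m, rfl⟩ := Nat.exists_eq_succ_of_ne_zero hn
    have hx' : K.bd m x = 0 := hx
    rcases Nat.even_or_odd m with hm | hm
    · refine ⟨x ⟨b (m + 1), hb (m + 1)⟩ • K.ch (m + 2) (b (m + 2)), ?_⟩
      rw [map_smul, hbd, if_neg (by rw [Nat.not_even_iff_odd]; exact hm.add_one)]
      exact (hrep (m + 1) x).symm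
    · rw [hrep (m + 1) x, map_smul, hbd, if_neg (by rwa [Nat.not_even_iff_odd])] at hx'
      have := hne m _ hx'
      refine ⟨0, ?_⟩
      rw [map_zero, hrep (m + 1) x, this, zero_smul]
  · refine ⟨Finsupp.lapply ⟨b 0, hb 0⟩, fun y => ?_, fun z _ hz => ?_⟩
    · rw [hrep 1 y, map_smul, hbd 0, if_pos (by decide), smul_zero, map_zero]
    · refine ⟨0, ?_⟩
      rw [map_zero, hrep 0 z]
      have : z ⟨b 0, hb 0⟩ = 0 := hz
      rw [this, zero_smul]

/-! ### Algebraic spheres -/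

theorem AlgSphere.hs {N : ℕ} {K : PSS} (h : AlgSphere N K) :
    1 ≤ N ∧ HS (C := fun n => K.B n →₀ ℤ) K.bd N := by
  induction h with
  | one E L hE hL => exact ⟨le_rfl, (ses L).susp (Acyclic.ex hE) (s0_hs hL)⟩
  | susp E L hE _ ih => exact ⟨by omega, (ses L).susp (Acyclic.ex hE) ih.2⟩
  | ofSub K L hQ _ ih =>
    obtain ⟨k, hk⟩ := Acyclic.contraction hQ
    exact ⟨ih.1, (ses L).ofSub (Acyclic.ex hQ) hk ih.2⟩
  | ofQuot K L hL _ ih => exact ⟨ih.1, (ses L).ofQuot (Acyclic.ex hL) ih.2⟩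
  | @toQuot N K L hL _ ih =>
    obtain ⟨k, hk⟩ := Acyclic.contraction hL
    obtain ⟨m, rfl⟩ : ∃ m, N = m + 1 := ⟨N - 1, by omega⟩
    exact ⟨ih.1, (ses L).toQuot hk ih.2⟩
  | iso K K' e _ ih => exact ⟨ih.1, iso_hs e ih.2⟩

/-- **The homology of an algebraic `(m+1)`-sphere** in plain words. -/
theorem AlgSphere.homology {m : ℕ} {K : PSS} (h : AlgSphere (m + 1) K) :
    (∀ x : K.B 0 →₀ ℤ, ∃ y, K.bd 0 y = x) ∧
      (∀ n, n ≠ m → ∀ x : K.B (n + 1) →₀ ℤ, K.bd n x = 0 → ∃ y, K.bd (n + 1) y = x) ∧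
      ∃ c : (K.B (m + 1) →₀ ℤ) →ₗ[ℤ] ℤ, (∀ y, c (K.bd (m + 1) y) = 0) ∧
        ∀ z : K.B (m + 1) →₀ ℤ, K.bd m z = 0 → c z = 0 → ∃ y, K.bd (m + 1) y = z := by
  obtain ⟨_, h2, c, hc, hc'⟩ := AlgSphere.hs h
  exact ⟨fun x => h2 0 (by omega) x trivial, fun n hn x hx => h2 (n + 1) (by omega) x hx,
    c, hc, hc'⟩

end

end Pool.Agent.Lib.MP_904b2a_gt.H86
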