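import Pool.Agent.Lib.MP_904b2a_gt.Interfaces

/-!
# MP_904b2a_gt, module SPH-B: the map `Δ^j → S^j` which collapses the boundary
-/

set_option autoImplicit false

open scoped BigOperators
open Metric Set Finset

namespace Pool.Agent.Lib.MP_904b2a_gt.H86

noncomputable section

variable {j : ℕ}

/-- `(j+1)` times the smallest barycentric coordinate. -/
def mn (j : ℕ) (t : Simp j) : ℝ := (j + 1) * univ.inf' univ_nonempty (fun k : Fin (j + 1) => t k)

theorem continuous_mn : Continuous (mn j) := by
  unfold mn
  refine continuous_const.mul (Continuous.finset_inf'_apply _ (fun k _ => ?_))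
  exact (continuous_apply k).comp continuous_subtype_val

theorem mn_le (t : Simp j) (k : Fin (j + 1)) : mn j t ≤ (j + 1) * t k :=
  mul_le_mul_of_nonneg_left (inf'_le _ (mem_univ k)) (by positivity)

theorem exists_mn (t : Simp j) : ∃ k, mn j t = (j + 1) * t k := by
  obtain ⟨k, _, hk⟩ := exists_mem_eq_inf' (univ_nonempty (α := Fin (j + 1))) (fun k => t k)
  exact ⟨k, by rw [mn, hk]⟩

theorem mn_nonneg (t : Simp j) : 0 ≤ mn j t := by
  obtain ⟨k, hk⟩ := exists_mn t
  rw [hk]
  have := stdSimplex.zero_le t k
  positivity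

theorem mn_le_one (t : Simp j) : mn j t ≤ 1 := by
  have h : ∑ k : Fin (j + 1), mn j t ≤ ∑ k : Fin (j + 1), ((j : ℝ) + 1) * t k :=
    sum_le_sum (fun k _ => mn_le t k)
  rw [← mul_sum, stdSimplex.sum_eq_one, sum_const, card_univ, Fintype.card_fin, nsmul_eq_mul] at h
  push_cast at h
  have hj : (0 : ℝ) < j + 1 := by positivity
  nlinarith

theorem mn_eq_zero (t : Simp j) : mn j t = 0 ↔ ∃ k, t k = 0 := by
  constructor
  · intro h
    obtain ⟨k, hk⟩ := exists_mn t
    rw [h] at hk
    have hj : (j : ℝ) + 1 ≠ 0 := by positivity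
    exact ⟨k, (mul_eq_zero.mp hk.symm).resolve_left hj⟩
  · rintro ⟨k, hk⟩
    have := mn_le t k
    rw [hk, mul_zero] at this
    exact le_antisymm this (mn_nonneg t)

/-- If `mn t = 1` then `t` is the barycentre. -/
theorem eq_of_mn_eq_one (t : Simp j) (h : mn j t = 1) (k : Fin (j + 1)) : ((j : ℝ) + 1) * t k = 1 := by
  by_contra hne
  have h1 : ∀ l, 1 ≤ ((j : ℝ) + 1) * t l := fun l => h ▸ mn_le t l
  have hlt : ∑ l : Fin (j + 1), (1 : ℝ) < ∑ l : Fin (j + 1), ((j : ℝ) + 1) * t l :=
    sum_lt_sum (fun l _ => h1 l) ⟨k, mem_univ k, lt_of_le_of_ne (h1 k) (Ne.symm hne)⟩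
  rw [← mul_sum, stdSimplex.sum_eq_one] at hlt
  simp at hlt

/-- The unnormalised collapse map. -/
def cw (j : ℕ) (t : Simp j) : Fin (j + 1) → ℝ :=
  Fin.cons (2 * mn j t - 1) (fun k : Fin j => mn j t * (t k.succ - t 0))

theorem cw_zero (t : Simp j) : cw j t 0 = 2 * mn j t - 1 := rfl

theorem cw_succ (t : Simp j) (k : Fin j) : cw j t k.succ = mn j t * (t k.succ - t 0) := rfl

theorem continuous_cw : Continuous (cw j) := by
  refine continuous_pi (fun k => ?_)
  refine Fin.cases ?_ (fun k => ?_) k
  · simp only [cw_zero]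
    exact (continuous_const.mul continuous_mn).sub continuous_const
  · simp only [cw_succ]
    exact continuous_mn.mul (((continuous_apply k.succ).comp continuous_subtype_val).sub
      ((continuous_apply 0).comp continuous_subtype_val))

theorem cw_ne_zero (t : Simp j) : cw j t ≠ 0 := by
  intro h
  have h0 : 2 * mn j t - 1 = 0 := congrFun h 0
  have hm : mn j t = 1 / 2 := by linarith
  have hk : ∀ k : Fin j, t k.succ = t 0 := by
    intro k
    have : mn j t * (t k.succ - t 0) = 0 := congrFun h k.succ
    rw [hm] at this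
    linarith
  have hs := stdSimplex.sum_eq_one t
  rw [Fin.sum_univ_succ] at hs
  rw [sum_congr rfl (fun k _ => hk k), sum_const, card_univ, Fintype.card_fin, nsmul_eq_mul] at hs
  obtain ⟨l, hl⟩ := exists_mn t
  have hl' : t l = t 0 := by
    refine Fin.cases rfl (fun k => hk k) l
  rw [hl', hm] at hl
  linarith

/-- The map `Δ^j → S^j` which collapses the boundary. -/
def clp (j : ℕ) : C(Simp j, SB (j + 1)) where
  toFun t := ⟨‖cw j t‖⁻¹ • cw j t, by
    rw [mem_sphere_zero_iff_norm, norm_smul, norm_inv, norm_norm,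
      inv_mul_cancel₀ (norm_ne_zero_iff.mpr (cw_ne_zero t))]⟩
  continuous_toFun := by
    refine Continuous.subtype_mk ?_ _
    exact (continuous_cw.norm.inv₀ (fun t => norm_ne_zero_iff.mpr (cw_ne_zero t))).smul
      continuous_cw

theorem clp_val (t : Simp j) : (clp j t).1 = ‖cw j t‖⁻¹ • cw j t := rfl

/-- The image of the boundary. -/
def p₀ (j : ℕ) : SB (j + 1) :=
  ⟨Fin.cons (-1) (fun _ => 0), by
    rw [mem_sphere_zero_iff_norm]
    apply le_antisymm
    · rw [pi_norm_le_iff_of_nonneg zero_le_one]
      intro k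
      refine Fin.cases ?_ (fun k => ?_) k
      · simp
      · simp
    · have := norm_le_pi_norm (Fin.cons (-1) (fun _ => 0) : Fin (j + 1) → ℝ) 0
      simpa using this⟩

theorem clp_bdry (t : Simp j) (k : Fin (j + 1)) (h : t k = 0) : clp j t = p₀ j := by
  have hm : mn j t = 0 := (mn_eq_zero t).mpr ⟨k, h⟩
  have hw : cw j t = (p₀ j).1 := by
    funext l
    refine Fin.cases ?_ (fun l => ?_) l
    · rw [cw_zero, hm]
      simp [p₀]
    · rw [cw_succ, hm]
      simp [p₀]
  apply Subtype.ext
  rw [clp_val, hw, mem_sphere_zero_iff_norm.mp (p₀ j).2]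
  simp

theorem mn_aux {t t' : Simp j} {μ : ℝ} (hμ : 0 < μ)
    (h : ∀ k : Fin (j + 1), t k - t 0 = μ * (t' k - t' 0)) :
    1 - mn j t = μ * (1 - mn j t') := by
  -- the sum
  have hs : 1 - ((j : ℝ) + 1) * t 0 = μ * (1 - (j + 1) * t' 0) := by
    have e : ∑ k : Fin (j + 1), (t k - t 0) = ∑ k : Fin (j + 1), μ * (t' k - t' 0) :=
      sum_congr rfl (fun k _ => h k)
    rw [← mul_sum, sum_sub_distrib, sum_sub_distrib, stdSimplex.sum_eq_one,
      stdSimplex.sum_eq_one, sum_const, sum_const, card_univ, Fintype.card_fin, nsmul_eq_mul,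
      nsmul_eq_mul] at e
    push_cast at e
    exact e
  have hj : (0 : ℝ) < j + 1 := by positivity
  have key : ∀ k, 1 - ((j : ℝ) + 1) * t k = μ * (1 - (j + 1) * t' k) := by
    intro k
    have := h k
    have e : ((j : ℝ) + 1) * t k = (j + 1) * t 0 + μ * ((j + 1) * t' k - (j + 1) * t' 0) := by
      have : t k = t 0 + μ * (t' k - t' 0) := by linarith
      rw [this]
      ring
    rw [e]
    linarith
  apply le_antisymm
  · obtain ⟨k, hk⟩ := exists_mn t
    rw [hk, key]
    have := mn_le t' k
    nlinarith
  · obtain ⟨k, hk⟩ := exists_mn t'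
    rw [hk, ← key]
    have := mn_le t k
    linarith

theorem clp_inj {t t' : Simp j} (h : clp j t = clp j t') :
    t = t' ∨ ((∃ k, t k = 0) ∧ ∃ k, t' k = 0) := by
  have h1 : ‖cw j t‖⁻¹ • cw j t = ‖cw j t'‖⁻¹ • cw j t' := congrArg Subtype.val h
  have hn := norm_pos_iff.mpr (cw_ne_zero t)
  have hn' := norm_pos_iff.mpr (cw_ne_zero t')
  set lam : ℝ := ‖cw j t‖ * ‖cw j t'‖⁻¹ with hlam
  have hlam0 : 0 < lam := by positivity
  have h2 : cw j t = lam • cw j t' := by
    rw [hlam, mul_smul, ← h1, smul_smul, mul_inv_cancel₀ hn.ne', one_smul]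
  have e0 : 2 * mn j t - 1 = lam * (2 * mn j t' - 1) := congrFun h2 0
  have ek : ∀ k : Fin j, mn j t * (t k.succ - t 0) = lam * (mn j t' * (t' k.succ - t' 0)) :=
    fun k => congrFun h2 k.succ
  rcases (mn_nonneg t).eq_or_lt with hm | hm
  · rcases (mn_nonneg t').eq_or_lt with hm' | hm'
    · exact Or.inr ⟨(mn_eq_zero t).mp hm.symm, (mn_eq_zero t').mp hm'.symm⟩
    · exfalso
      -- then `v' = 0`, so `m' = 1`
      have hv : ∀ k : Fin (j + 1), t' k - t' 0 = 1 * (t' 0 - t' 0) := by
        intro k
        refine Fin.cases (by simp) (fun k => ?_) k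
        have := ek k
        rw [← hm, zero_mul] at this
        have h3 : t' k.succ - t' 0 = 0 := by
          rcases mul_eq_zero.mp this.symm with h4 | h4
          · exact absurd h4 hlam0.ne'
          · exact (mul_eq_zero.mp h4).resolve_left hm'.ne'
        rw [h3]
        ring
      have hall : ∀ k, t' k = t' 0 := fun k => by have := hv k; linarith
      have hs := stdSimplex.sum_eq_one t'
      rw [sum_congr rfl (fun k _ => hall k), sum_const, card_univ, Fintype.card_fin,
        nsmul_eq_mul] at hs
      push_cast at hs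
      obtain ⟨l, hl⟩ := exists_mn t'
      rw [hall l] at hl
      rw [← hm] at e0
      have : mn j t' = 1 := by rw [hl]; exact hs
      rw [this] at e0
      linarith
  · rcases (mn_nonneg t').eq_or_lt with hm' | hm'
    · exfalso
      have hall : ∀ k, t k = t 0 := by
        intro k
        refine Fin.cases rfl (fun k => ?_) k
        have := ek k
        rw [← hm', zero_mul, mul_zero] at this
        have := (mul_eq_zero.mp this).resolve_left hm.ne'
        linarith
      have hs := stdSimplex.sum_eq_one t
      rw [sum_congr rfl (fun k _ => hall k), sum_const, card_univ, Fintype.card_fin,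
        nsmul_eq_mul] at hs
      push_cast at hs
      obtain ⟨l, hl⟩ := exists_mn t
      rw [hall l] at hl
      rw [← hm'] at e0
      have : mn j t = 1 := by rw [hl]; exact hs
      rw [this] at e0
      linarith
    · left
      set m := mn j t
      set m' := mn j t'
      set μ : ℝ := lam * m' / m with hμ
      have hμ0 : 0 < μ := by positivity
      have hv : ∀ k : Fin (j + 1), t k - t 0 = μ * (t' k - t' 0) := by
        intro k
        refine Fin.cases (by simp) (fun k => ?_) k
        have := ek k
        rw [hμ]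
        field_simp
        linarith
      have hmm : 1 - m = μ * (1 - m') := mn_aux hμ0 hv
      have hmm2 : m * (1 - m) = lam * (m' * (1 - m')) := by
        rw [hmm, hμ]
        field_simp
      have hm1 : m ≤ 1 := mn_le_one t
      have hm1' : m' ≤ 1 := mn_le_one t'
      have hprod : (m - m') * (m * m' + (1 - m) * (1 - m')) = 0 := by
        have e1 : lam * ((2 * m - 1) * (m' * (1 - m'))) = lam * ((2 * m' - 1) * (m * (1 - m))) := by
          calc lam * ((2 * m - 1) * (m' * (1 - m')))
              = (2 * m - 1) * (lam * (m' * (1 - m'))) := by ring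
            _ = (2 * m - 1) * (m * (1 - m)) := by rw [hmm2]
            _ = (lam * (2 * m' - 1)) * (m * (1 - m)) := by rw [e0]
            _ = lam * ((2 * m' - 1) * (m * (1 - m))) := by ring
        have e2 := mul_left_cancel₀ hlam0.ne' e1
        linear_combination e2
      have hpos : 0 < m * m' + (1 - m) * (1 - m') := by
        have h5 : 0 < m * m' := mul_pos hm hm'
        have h6 : 0 ≤ (1 - m) * (1 - m') := mul_nonneg (by linarith) (by linarith)
        linarith
      have hmeq : m = m' := by
        have := (mul_eq_zero.mp hprod).resolve_right hpos.ne'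
        linarith
      have hlam1 : lam = 1 := by
        by_contra hne
        have e1 : (lam - 1) * (2 * m - 1) = 0 := by
          rw [← hmeq] at e0
          linarith
        have e2 : (lam - 1) * (m * (1 - m)) = 0 := by
          rw [← hmeq] at hmm2
          linarith
        have e3 := (mul_eq_zero.mp e1).resolve_left (sub_ne_zero.mpr hne)
        have e4 := (mul_eq_zero.mp e2).resolve_left (sub_ne_zero.mpr hne)
        have : m = 1 / 2 := by linarith
        rw [this] at e4
        norm_num at e4
      have hμ1 : μ = 1 := by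
        rw [hμ, hlam1, hmeq, one_mul, div_self hm'.ne']
      have hv1 : ∀ k : Fin (j + 1), t k - t 0 = t' k - t' 0 := fun k => by rw [hv, hμ1, one_mul]
      have h0 : t 0 = t' 0 := by
        have e : ∑ k : Fin (j + 1), (t k - t 0) = ∑ k : Fin (j + 1), (t' k - t' 0) :=
          sum_congr rfl (fun k _ => hv1 k)
        rw [sum_sub_distrib, sum_sub_distrib, stdSimplex.sum_eq_one, stdSimplex.sum_eq_one,
          sum_const, sum_const, card_univ, Fintype.card_fin, nsmul_eq_mul, nsmul_eq_mul] at e
        have hj : (0 : ℝ) < ((j + 1 : ℕ) : ℝ) := by positivity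
        have e' : ((j + 1 : ℕ) : ℝ) * t 0 = ((j + 1 : ℕ) : ℝ) * t' 0 := by linarith
        exact mul_left_cancel₀ hj.ne' e'
      apply stdSimplex.ext
      funext k
      have := hv1 k
      rw [h0] at this
      linarith

theorem clp_of_smul {t : Simp j} {p : SB (j + 1)} {c : ℝ} (hc : 0 < c) (h : cw j t = c • p.1) :
    clp j t = p := by
  apply Subtype.ext
  rw [clp_val, h, norm_smul, mem_sphere_zero_iff_norm.mp p.2, mul_one, smul_smul,
    Real.norm_of_nonneg hc.le, inv_mul_cancel₀ hc.ne', one_smul]

theorem clp_surjective (hj : 1 ≤ j) : Function.Surjective (clp j) := by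
  intro p
  have hjp : (0 : ℝ) < j + 1 := by positivity
  by_cases hy : ∀ k : Fin j, p.1 k.succ = 0
  · -- then the first coordinate is `1` or `-1`
    have hs : |p.1 0| = 1 := by
      have hp := mem_sphere_zero_iff_norm.mp p.2
      apply le_antisymm
      · exact (norm_le_pi_norm p.1 0).trans_eq hp
      · refine hp.symm.le.trans ((pi_norm_le_iff_of_nonneg (abs_nonneg _)).mpr (fun k => ?_))
        refine Fin.cases ?_ (fun k => ?_) k
        · exact le_of_eq (Real.norm_eq_abs _)
        · rw [hy k, norm_zero]
          exact abs_nonneg _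
    rcases (abs_eq zero_le_one).mp hs with h1 | h1
    · -- the barycentre
      let t : Simp j := ⟨fun _ => 1 / ((j : ℝ) + 1), fun _ => by positivity, by
        rw [sum_const, card_univ, Fintype.card_fin, nsmul_eq_mul]
        push_cast
        field_simp⟩
      have ht : ∀ k, t k = 1 / ((j : ℝ) + 1) := fun _ => rfl
      refine ⟨t, clp_of_smul one_pos ?_⟩
      have hm : mn j t = 1 := by
        obtain ⟨k, hk⟩ := exists_mn t
        rw [hk, ht]
        field_simp
      funext k
      rw [one_smul]
      refine Fin.cases ?_ (fun k => ?_) k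
      · rw [cw_zero, hm, h1]
        norm_num
      · rw [cw_succ, ht, ht, sub_self, mul_zero, hy]
    · refine ⟨stdSimplex.vertex 0, ?_⟩
      rw [clp_bdry (stdSimplex.vertex 0) ⟨1, by omega⟩ ?_]
      · apply Subtype.ext
        funext k
        refine Fin.cases ?_ (fun k => ?_) k
        · rw [h1]
          rfl
        · rw [hy k]
          rfl
      · change (Pi.single (0 : Fin (j + 1)) (1 : ℝ) : Fin (j + 1) → ℝ) ⟨1, by omega⟩ = 0
        rw [Pi.single_eq_of_ne]
        intro h
        exact absurd (congrArg Fin.val h) one_ne_zero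
  · -- the general case
    let u : Fin (j + 1) → ℝ := Fin.cons 0 (fun k => p.1 k.succ)
    let a : ℝ := (∑ k, u k) / (j + 1)
    let u' : Fin (j + 1) → ℝ := fun k => u k - a
    have hsum : ∑ k, u' k = 0 := by
      change ∑ k, (u k - a) = 0
      rw [sum_sub_distrib, sum_const, card_univ, Fintype.card_fin, nsmul_eq_mul]
      push_cast
      change _ - ((j : ℝ) + 1) * ((∑ k, u k) / (j + 1)) = 0
      rw [mul_div_cancel₀ _ hjp.ne', sub_self]
    obtain ⟨k₀, -, hk₀⟩ := exists_mem_eq_inf' (univ_nonempty (α := Fin (j + 1))) (fun k => u' k)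
    have hmin : ∀ k, u' k₀ ≤ u' k := fun k => hk₀ ▸ inf'_le _ (mem_univ k)
    have hneg : u' k₀ < 0 := by
      by_contra hge
      rw [not_lt] at hge
      have hall : ∀ k ∈ Finset.univ, u' k = 0 :=
        (sum_eq_zero_iff_of_nonneg (fun k _ => hge.trans (hmin k))).mp hsum
      apply hy
      intro k
      have e0 : u 0 - a = 0 := hall 0 (mem_univ _)
      have e1 : u k.succ - a = 0 := hall k.succ (mem_univ _)
      have e2 : u 0 = 0 := rfl
      have e3 : u k.succ = p.1 k.succ := rfl
      rw [← e3]
      linarith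
    set g : ℝ := -((j + 1) * u' k₀) with hg
    have hg0 : 0 < g := by
      rw [hg]
      have : (j + 1) * u' k₀ < 0 := mul_neg_of_pos_of_neg hjp hneg
      linarith
    -- the root
    obtain ⟨r, ⟨hr0, hr1⟩, hr⟩ : ∃ r ∈ Icc (0 : ℝ) 1, (1 - 2 * r) - p.1 0 * ((1 - r) * r / g) = 0 := by
      have hc : ContinuousOn (fun r : ℝ => (1 - 2 * r) - p.1 0 * ((1 - r) * r / g)) (Icc 0 1) := by
        fun_prop
      have := intermediate_value_Icc' zero_le_one hc
      apply this
      constructor
      · norm_num
      · norm_num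
    have hr0' : 0 < r := by
      rcases hr0.eq_or_lt with h | h
      · rw [← h] at hr
        norm_num at hr
      · exact h
    have hr1' : r < 1 := by
      rcases hr1.eq_or_lt with h | h
      · rw [h] at hr
        norm_num at hr
      · exact h
    have hge : ∀ k, 0 ≤ 1 / ((j : ℝ) + 1) + r / g * u' k := by
      intro k
      have h1 : r / g * u' k₀ ≤ r / g * u' k := mul_le_mul_of_nonneg_left (hmin k) (by positivity)
      have h2 : r / g * u' k₀ = - (r / (j + 1)) := by
        have : u' k₀ = - (g / (j + 1)) := by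
          rw [hg]
          field_simp
        rw [this]
        field_simp
      have h3 : r / ((j : ℝ) + 1) ≤ 1 / (j + 1) := by gcongr
      linarith
    let t : Simp j := ⟨fun k => 1 / ((j : ℝ) + 1) + r / g * u' k, hge, by
      rw [sum_add_distrib, ← mul_sum, hsum, sum_const, card_univ, Fintype.card_fin, nsmul_eq_mul]
      push_cast
      field_simp
      ring⟩
    have ht : ∀ k, t k = 1 / ((j : ℝ) + 1) + r / g * u' k := fun _ => rfl
    have hm : mn j t = 1 - r := by
      have hk0 : ((j : ℝ) + 1) * t k₀ = 1 - r := by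
        rw [ht]
        have : u' k₀ = - (g / (j + 1)) := by
          rw [hg]
          field_simp
        rw [this]
        field_simp
        ring
      apply le_antisymm
      · rw [← hk0]
        exact mn_le t k₀
      · obtain ⟨k, hk⟩ := exists_mn t
        rw [hk, ← hk0]
        apply mul_le_mul_of_nonneg_left _ hjp.le
        rw [ht, ht]
        have h1 : r / g * u' k₀ ≤ r / g * u' k :=
          mul_le_mul_of_nonneg_left (hmin k) (by positivity)
        linarith
    refine ⟨t, clp_of_smul (c := (1 - r) * r / g) ?_ ?_⟩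
    · have : 0 < 1 - r := by linarith
      positivity
    · funext k
      rw [Pi.smul_apply, smul_eq_mul]
      refine Fin.cases ?_ (fun k => ?_) k
      · rw [cw_zero, hm]
        linarith
      · rw [cw_succ, hm, ht, ht]
        have e2 : u' 0 = 0 - a := rfl
        have e3 : u' k.succ = p.1 k.succ - a := rfl
        rw [e2, e3]
        field_simp
        ring

end

end Pool.Agent.Lib.MP_904b2a_gt.H86
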