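import Pool.Agent.Lib.MP_904b2a_gt.Coh
import Pool.Agent.Lib.MP_904b2a_gt.H86.Collapse

/-!
# MP_904b2a_gt, module SPH-B: quotient maps, null-homotopies and extensions
-/

set_option autoImplicit false

open scoped BigOperators unitInterval
open Metric Set

namespace Pool.Agent.Lib.MP_904b2a_gt.H86

noncomputable section

/-- A continuous map on a compact space which is constant on the fibres of a surjection onto a
Hausdorff space descends. -/
theorem descend {A B C : Type*} [TopologicalSpace A] [CompactSpace A] [TopologicalSpace B]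
    [T2Space B] [TopologicalSpace C] (p : C(A, B)) (hp : Function.Surjective p) (g : C(A, C))
    (hg : ∀ a a', p a = p a' → g a = g a') : ∃ F : C(B, C), ∀ a, F (p a) = g a := by
  have hq : Topology.IsQuotientMap p := p.continuous.isClosedMap.isQuotientMap p.continuous hp
  have hf : Function.FactorsThrough g p := fun a a' h => hg a a' h
  refine ⟨hq.lift g hf, fun a => ?_⟩
  exact DFunLike.congr_fun (hq.lift_comp g hf) a

/-- A null-homotopic map on the sphere extends to the ball. -/
theorem extends_of_nullhomotopic {G : Type*} [TopologicalSpace G] {k : ℕ} (hk : 1 ≤ k)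
    (f : C(SB k, G)) (g : G) (h : f.Homotopic (ContinuousMap.const _ g)) :
    ∃ F : C(CB k, G), ∀ x : SB k, F (SB.incl k x) = f x := by
  obtain ⟨H⟩ := h
  -- the map `(x, s) ↦ (1 - s) x`
  let p : C(SB k × I, CB k) :=
    ⟨fun y => ⟨(1 - (y.2 : ℝ)) • y.1.1, by
      have h1 : ‖y.1.1‖ = 1 := mem_sphere_zero_iff_norm.mp y.1.2
      rw [mem_closedBall_zero_iff, norm_smul, h1, mul_one,
        Real.norm_of_nonneg (sub_nonneg.mpr y.2.2.2)]
      linarith [y.2.2.1]⟩, by fun_prop⟩
  have hpv : ∀ y, (p y).1 = (1 - (y.2 : ℝ)) • y.1.1 := fun _ => rfl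
  have hn : ∀ y, ‖(p y).1‖ = 1 - (y.2 : ℝ) := by
    intro y
    have h1 : ‖y.1.1‖ = 1 := mem_sphere_zero_iff_norm.mp y.1.2
    rw [hpv, norm_smul, h1, mul_one, Real.norm_of_nonneg (sub_nonneg.mpr y.2.2.2)]
  have hp : Function.Surjective p := by
    intro z
    have hz : ‖z.1‖ ≤ 1 := mem_closedBall_zero_iff.mp z.2
    by_cases h0 : ‖z.1‖ = 0
    · let e : SB k := ⟨fun _ => 1, by
        rw [mem_sphere_zero_iff_norm]
        have : Nonempty (Fin k) := ⟨⟨0, hk⟩⟩
        rw [pi_norm_const, norm_one]⟩
      refine ⟨(e, 1), Subtype.ext ?_⟩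
      rw [hpv, norm_eq_zero.mp h0]
      simp
    · refine ⟨(⟨‖z.1‖⁻¹ • z.1, by
        rw [mem_sphere_zero_iff_norm, norm_smul, norm_inv, norm_norm, inv_mul_cancel₀ h0]⟩,
        ⟨1 - ‖z.1‖, by linarith, by linarith [norm_nonneg z.1]⟩), Subtype.ext ?_⟩
      rw [hpv]
      change (1 - (1 - ‖z.1‖)) • ‖z.1‖⁻¹ • z.1 = z.1
      rw [smul_smul, sub_sub_cancel, mul_inv_cancel₀ h0, one_smul]
  let g' : C(SB k × I, G) := H.toContinuousMap.comp ⟨Prod.swap, continuous_swap⟩
  have hg' : ∀ y, g' y = H (y.2, y.1) := fun _ => rfl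
  obtain ⟨F, hF⟩ := descend p hp g' (by
    intro a a' haa
    have h1 : (a.2 : ℝ) = a'.2 := by
      have := hn a
      rw [haa, hn a'] at this
      linarith
    have h2 : a.2 = a'.2 := Subtype.ext h1
    rw [hg', hg', h2]
    by_cases h3 : (a'.2 : ℝ) = 1
    · have h4 : a'.2 = 1 := Subtype.ext h3
      rw [h4, H.apply_one, H.apply_one]
      rfl
    · have h5 : (1 - (a'.2 : ℝ)) • a.1.1 = (1 - (a'.2 : ℝ)) • a'.1.1 := by
        have := congrArg Subtype.val haa
        rw [hpv, hpv, h1] at this
        exact this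
      have h6 : a.1 = a'.1 := Subtype.ext (smul_right_injective _ (sub_ne_zero.mpr (Ne.symm h3)) h5)
      rw [h6])
  refine ⟨F, fun x => ?_⟩
  have e : SB.incl k x = p (x, 0) := by
    apply Subtype.ext
    rw [hpv]
    simp [SB.incl]
  rw [e, hF, hg', H.apply_zero]

/-! ### Faces of simplices -/

theorem fv_eq_succAbove (n : ℕ) (i : Fin (n + 2)) : fv n i = i.succAbove := by
  funext k
  rw [fv]
  split_ifs with h
  · rw [Fin.succAbove_of_castSucc_lt]
    exact h
  · rw [Fin.succAbove_of_le_castSucc]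
    exact not_lt.mp h

/-- A point of the simplex with `i`-th coordinate zero lies in the `i`-th face. -/
theorem exists_face (n : ℕ) (i : ℕ) (hi : i ≤ n + 1) (y : Simp (n + 1))
    (h : y ⟨i, Nat.lt_succ_of_le hi⟩ = 0) : ∃ x : Simp n, smap (fv n i) x = y := by
  let i' : Fin (n + 2) := ⟨i, Nat.lt_succ_of_le hi⟩
  refine ⟨⟨fun k => y (i'.succAbove k), fun k => stdSimplex.zero_le y _, ?_⟩, ?_⟩
  · have := stdSimplex.sum_eq_one y
    rw [Fin.sum_univ_succAbove _ i'] at this
    change y ⟨i, _⟩ + _ = 1 at this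
    rwa [h, zero_add] at this
  · apply stdSimplex.ext
    funext l
    rw [smap_apply]
    change ∑ k : Fin (n + 1), (if fv n (i' : ℕ) k = l then y (i'.succAbove k) else 0) = _
    rw [fv_eq_succAbove]
    by_cases hl : l = i'
    · rw [hl, Finset.sum_eq_zero]
      · exact h.symm
      · intro k _
        rw [if_neg (Fin.succAbove_ne i' k)]
    · obtain ⟨m, rfl⟩ := Fin.exists_succAbove_eq hl
      rw [Finset.sum_eq_single m]
      · rw [if_pos rfl]
      · intro k _ hk
        rw [if_neg]
        intro he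
        exact hk (Fin.succAbove_right_injective he)
      · intro hm
        exact absurd (Finset.mem_univ m) hm

/-- The `i`-th coordinate of a point of the `i`-th face is zero. -/
theorem face_coord (n : ℕ) (i : ℕ) (hi : i ≤ n + 1) (x : Simp n) :
    smap (fv n i) x ⟨i, Nat.lt_succ_of_le hi⟩ = 0 := by
  rw [smap_apply]
  refine Finset.sum_eq_zero (fun k _ => ?_)
  rw [if_neg]
  intro h
  have := congrArg Fin.val h
  rw [fv_val] at this
  change _ = i at this
  split_ifs at this <;> omega

/-- The cone map `(x, s) ↦ (1 - s) δ₀ x + s v₀`. -/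
def cone (n : ℕ) : C(Simp n × I, Simp (n + 1)) where
  toFun y := ⟨Fin.cons (y.2 : ℝ) (fun k => (1 - (y.2 : ℝ)) * y.1 k), by
    refine ⟨fun k => ?_, ?_⟩
    · refine Fin.cases ?_ (fun k => ?_) k
      · exact y.2.2.1
      · exact mul_nonneg (sub_nonneg.mpr y.2.2.2) (stdSimplex.zero_le y.1 k)
    · rw [Fin.sum_univ_succ]
      simp only [Fin.cons_zero, Fin.cons_succ]
      rw [← Finset.mul_sum, stdSimplex.sum_eq_one, mul_one]
      ring⟩
  continuous_toFun := by
    refine Continuous.subtype_mk (continuous_pi (fun k => ?_)) _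
    refine Fin.cases ?_ (fun k => ?_) k
    · simp only [Fin.cons_zero]
      exact continuous_subtype_val.comp continuous_snd
    · simp only [Fin.cons_succ]
      exact (continuous_const.sub (continuous_subtype_val.comp continuous_snd)).mul
        ((continuous_apply k).comp (continuous_subtype_val.comp continuous_fst))

theorem cone_zero_coord (n : ℕ) (y : Simp n × I) : cone n y 0 = (y.2 : ℝ) := rfl

theorem cone_succ_coord (n : ℕ) (y : Simp n × I) (k : Fin (n + 1)) :
    cone n y k.succ = (1 - (y.2 : ℝ)) * y.1 k := rfl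

theorem cone_zero (n : ℕ) (x : Simp n) : cone n (x, 0) = smap (fv n 0) x := by
  apply stdSimplex.ext
  funext l
  refine Fin.cases ?_ (fun k => ?_) l
  · have := face_coord n 0 (by omega) x
    exact this.symm
  · change cone n (x, 0) k.succ = _
    rw [cone_succ_coord, smap_apply]
    rw [Finset.sum_eq_single k]
    · rw [if_pos]
      · simp
      · apply Fin.ext
        rw [fv_val]
        simp
    · intro m _ hm
      rw [if_neg]
      intro h
      apply hm
      have := congrArg Fin.val h
      rw [fv_val] at this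
      apply Fin.ext
      simpa using this
    · intro hm
      exact absurd (Finset.mem_univ k) hm

/-- A homotopy on the collapsed simplex. -/
theorem homotopy_of_simplex {G : Type*} [TopologicalSpace G] {j : ℕ} (hj : 1 ≤ j)
    (t : C(Simp (j + 1), G)) (g : G)
    (ht : ∀ i, 1 ≤ i → i ≤ j + 1 → t.comp (smap (fv j i)) = ContinuousMap.const _ g)
    (f : C(SB (j + 1), G)) (hf : f.comp (clp j) = t.comp (smap (fv j 0))) :
    f.Homotopic (ContinuousMap.const _ g) := by
  have hbd : ∀ y : Simp (j + 1), ∀ k : Fin (j + 1), y k.succ = 0 → t y = g := by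
    intro y k hk
    obtain ⟨x, rfl⟩ := exists_face j (k + 1) (by have := k.2; omega) y hk
    have := DFunLike.congr_fun (ht (k + 1) (by omega) (by have := k.2; omega)) x
    exact this
  let p : C(Simp j × I, SB (j + 1) × I) := (clp j).prodMap (ContinuousMap.id I)
  have hp : Function.Surjective p := by
    rintro ⟨y, s⟩
    obtain ⟨x, rfl⟩ := clp_surjective hj y
    exact ⟨(x, s), rfl⟩
  obtain ⟨F, hF⟩ := descend p hp (t.comp (cone j)) (by
    rintro ⟨x, s⟩ ⟨x', s'⟩ h
    have h1 : clp j x = clp j x' := congrArg Prod.fst h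
    have h2 : s = s' := congrArg Prod.snd h
    subst h2
    rcases clp_inj h1 with rfl | ⟨⟨k, hk⟩, ⟨k', hk'⟩⟩
    · rfl
    · rw [ContinuousMap.comp_apply, ContinuousMap.comp_apply,
        hbd (cone j (x, s)) k (by rw [cone_succ_coord, hk, mul_zero]),
        hbd (cone j (x', s)) k' (by rw [cone_succ_coord, hk', mul_zero])])
  refine ⟨⟨F.comp ⟨Prod.swap, continuous_swap⟩, ?_, ?_⟩⟩
  · intro y
    obtain ⟨x, rfl⟩ := clp_surjective hj y
    change F (p (x, 0)) = _
    rw [hF, ContinuousMap.comp_apply, cone_zero]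
    exact (DFunLike.congr_fun hf x).symm
  · intro y
    obtain ⟨x, rfl⟩ := clp_surjective hj y
    change F (p (x, 1)) = _
    rw [hF, ContinuousMap.comp_apply]
    exact hbd _ 0 (by rw [cone_succ_coord]; simp)

end

end Pool.Agent.Lib.MP_904b2a_gt.H86
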