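import Pool.Agent.Lib.MP_904b2a_gt.H68.Prism
import Pool.Agent.Lib.MP_904b2a_gt.H86.Alg
import Pool.Agent.Lib.MP_904b2a_gt.H86.Top

/-!
# MP_904b2a_gt, module SPH-B: `SerreLite` from `AlgStatement`, `ObsStatement` and the singular
complexes of the spheres
-/

set_option autoImplicit false

open scoped BigOperators
open Metric Set

namespace Pool.Agent.Lib.MP_904b2a_gt.H86

noncomputable section

open PSS

/-! ### The chain of the collapsed simplex bounds -/

theorem chain_bounds {S : Type} [TopologicalSpace S] {N : ℕ} (hN : Odd N) {x₀ : S}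
    (hS : AlgSphere N (singP S x₀)) (k : ℕ) (u : C(SB (k + 1 + 1), S))
    (hu : k + 1 = N → ∀ c : H (k + 1) S ℤ, H.pb u c = 0)
    (hface : ∀ i, i ≤ k + 1 → (singP S x₀).d k i (u.comp (clp (k + 1))) = (singP S x₀).pt k) :
    ∃ w, (singP S x₀).bd (k + 1) w = (singP S x₀).ch (k + 1) (u.comp (clp (k + 1))) := by
  set K := singP S x₀ with hK
  have hs := AlgSphere.hs hS
  have hcyc : K.bd k (K.ch (k + 1) (u.comp (clp (k + 1)))) = 0 := by
    rw [bd_ch]
    refine Finset.sum_eq_zero (fun i hi => ?_)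
    rw [hface i (by have := Finset.mem_range.mp hi; omega), K.ch_pt68, smul_zero]
  by_cases hkN : k + 1 = N
  · subst hkN
    obtain ⟨c, hc, hc'⟩ := hs.2.2
    refine hc' _ hcyc ?_
    let φ : Coch (k + 1) S ℤ := fun x => c (K.ch (k + 1) x)
    have hφ : cob (k + 1) φ = 0 := by
      funext x
      rw [cob_apply]
      have e := hc (K.ch (k + 1 + 1) x)
      rw [bd_ch, map_sum] at e
      rw [Pi.zero_apply, ← e]
      refine Finset.sum_congr rfl (fun i _ => ?_)
      rw [map_smul]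
      rfl
    have h1 := hu rfl (H.mk (k + 1) ⟨φ, hφ⟩)
    rw [H.pb_mk, H.mk_eq_zero] at h1
    obtain ⟨ψ, hψ⟩ := h1
    have e := congrFun hψ (clp (k + 1))
    have e2 : pbC (k + 1) u φ (clp (k + 1)) = c (K.ch (k + 1) (u.comp (clp (k + 1)))) := rfl
    change cob k ψ (clp (k + 1)) = pbC (k + 1) u φ (clp (k + 1)) at e
    rw [← e2, ← e, cob_apply]
    have e3 : ∀ i ∈ Finset.range (k + 2), (-1 : ℤ) ^ i • ψ ((clp (k + 1)).comp (smap (fv k i))) =
        (-1 : ℤ) ^ i • ψ (ContinuousMap.const _ (p₀ (k + 1))) := by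
      intro i hi
      congr 2
      ext1 x
      exact clp_bdry _ ⟨i, by have := Finset.mem_range.mp hi; omega⟩
        (face_coord k i (by have := Finset.mem_range.mp hi; omega) x)
    rw [Finset.sum_congr rfl e3, ← Finset.sum_smul, alt_sum', if_pos, zero_smul]
    have := hN.add_one
    rwa [show k + 2 = k + 1 + 1 by omega]
  · exact hs.2.1 (k + 1) hkN _ hcyc

/-! ### The main step -/

theorem serre_aux (hAlg : PSS.AlgStatement) (hObs : ObsStatement) (S : Type) [TopologicalSpace S]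
    [PathConnectedSpace S] (N : ℕ) (hN : Odd N) (x₀ : S) (hS : AlgSphere N (singP S x₀))
    (hhom : ∀ x : S, ∃ A : S ≃ₜ S, A x = x₀) (j : ℕ) (hj : 1 ≤ j) :
    ∃ D : ℕ, 0 < D ∧
      ∀ (G : Type) [Group G] [TopologicalSpace G] [IsTopologicalGroup G] [PathConnectedSpace G]
        (β : C(S, G)) (u : C(SB (j + 1), S)),
        (j = N → ∀ c : H j S ℤ, H.pb u c = 0) →
        ∃ F : C(CB (j + 1), G), ∀ x : SB (j + 1), F (SB.incl (j + 1) x) = (β (u x)) ^ D := by
  obtain ⟨k, rfl⟩ : ∃ k, j = k + 1 := ⟨j - 1, by omega⟩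
  obtain ⟨D, hD, hO⟩ := hObs (singP S x₀) (hAlg N _ hS hN) (singP_contr S x₀) k
  refine ⟨D, hD, ?_⟩
  intro G _ _ _ _ β u hu
  suffices Hs : ∀ (β : C(S, G)) (u : C(SB (k + 1 + 1), S)), u (p₀ (k + 1)) = x₀ →
      (k + 1 = N → ∀ c : H (k + 1) S ℤ, H.pb u c = 0) →
      ∃ F : C(CB (k + 1 + 1), G), ∀ x : SB (k + 1 + 1),
        F (SB.incl (k + 1 + 1) x) = (β (u x)) ^ D by
    obtain ⟨A, hA⟩ := hhom (u (p₀ (k + 1)))
    obtain ⟨F, hF⟩ := Hs (β.comp (A.symm : C(S, S))) ((A : C(S, S)).comp u) hA (fun h c => by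
      rw [← H.pb_comp, hu h])
    refine ⟨F, fun x => ?_⟩
    rw [hF]
    change (β (A.symm (A (u x)))) ^ D = _
    rw [A.symm_apply_apply]
  clear u hu β
  intro β u hup hu
  have hface : ∀ i, i ≤ k + 1 → (singP S x₀).d k i (u.comp (clp (k + 1))) =
      (singP S x₀).pt k := by
    intro i hi
    refine ContinuousMap.ext (fun x => ?_)
    change u (clp (k + 1) (smap (fv k i) x)) = x₀
    rw [clp_bdry _ ⟨i, by omega⟩ (face_coord k i hi x), hup]
  let f : ∀ n, (singP S x₀).K n → C(Simp n, G) :=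
    fun n x => β.comp (show C(Simp n, S) from x) * ContinuousMap.const _ (β x₀)⁻¹
  obtain ⟨t, ht0, ht⟩ := hO G f (fun n i x _ => rfl) (fun n i x _ => rfl)
    (fun n => by
      refine ContinuousMap.ext (fun x => ?_)
      change β x₀ * (β x₀)⁻¹ = 1
      rw [mul_inv_cancel])
    (u.comp (clp (k + 1))) hface (chain_bounds hN hS k u hu hface)
  -- the map on the sphere
  let g : C(SB (k + 1 + 1), G) := (β.comp u * ContinuousMap.const _ (β x₀)⁻¹) ^ D
  have hg : g.Homotopic (ContinuousMap.const _ (1 : G)) := by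
    refine homotopy_of_simplex (by omega) t 1 (fun i hi hi' => ?_) g ?_
    · exact ht i hi (by omega)
    · rw [ht0]
      rfl
  have hg' : ((β.comp u) ^ D).Homotopic g := by
    obtain ⟨γ⟩ := PathConnectedSpace.joined (1 : G) (β x₀)⁻¹
    refine ⟨⟨⟨fun y => ((β (u y.2)) * γ y.1) ^ D, by fun_prop⟩, ?_, ?_⟩⟩
    · intro y
      change (β (u y) * γ 0) ^ D = (β (u y)) ^ D
      rw [γ.source, mul_one]
    · intro y
      change (β (u y) * γ 1) ^ D = (β (u y) * (β x₀)⁻¹) ^ D
      rw [γ.target]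
  obtain ⟨F, hF⟩ := extends_of_nullhomotopic (by omega) ((β.comp u) ^ D) (1 : G) (hg'.trans hg)
  exact ⟨F, fun x => by rw [hF]; rfl⟩

/-! ### The spheres -/

/-- A homeomorphism gives an isomorphism of singular complexes. -/
def singIso {X Y : Type} [TopologicalSpace X] [TopologicalSpace Y] (e : X ≃ₜ Y) (x₀ : X) :
    PSS.Iso (singP X x₀) (singP Y (e x₀)) where
  e n :=
    { toFun := fun σ => (e : C(X, Y)).comp (show C(Simp n, X) from σ)
      invFun := fun σ => (e.symm : C(Y, X)).comp (show C(Simp n, Y) from σ)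
      left_inv := fun _ => ContinuousMap.ext (fun _ => e.symm_apply_apply _)
      right_inv := fun _ => ContinuousMap.ext (fun _ => e.apply_symm_apply _) }
  map_pt _ := rfl
  map_d _ _ _ _ := rfl
  map_s _ _ _ _ := rfl

/-- An isometry of normed spaces gives a homeomorphism of the unit spheres. -/
def sphereHomeo {E F : Type*} [NormedAddCommGroup E] [NormedAddCommGroup F] [Module ℝ E]
    [Module ℝ F] (e : E ≃ₗᵢ[ℝ] F) : sphere (0 : E) 1 ≃ₜ sphere (0 : F) 1 where
  toFun x := ⟨e x.1, by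
    rw [mem_sphere_zero_iff_norm, e.norm_map]
    exact mem_sphere_zero_iff_norm.mp x.2⟩
  invFun y := ⟨e.symm y.1, by
    rw [mem_sphere_zero_iff_norm, e.symm.norm_map]
    exact mem_sphere_zero_iff_norm.mp y.2⟩
  left_inv x := Subtype.ext (e.symm_apply_apply _)
  right_inv y := Subtype.ext (e.apply_symm_apply _)
  continuous_toFun := (e.continuous.comp continuous_subtype_val).subtype_mk _
  continuous_invFun := (e.symm.continuous.comp continuous_subtype_val).subtype_mk _

/-- The unit sphere of `ℂ^i` as the unit sphere of `ℝ^(2i)`. -/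
theorem exists_sphHomeo (i : ℕ) (hi : 1 ≤ i) :
    Nonempty (Sph i ≃ₜ sphere (0 : EuclideanSpace ℝ (Fin (2 * i - 1 + 1))) 1) := by
  have hfr : Module.finrank ℝ (EuclideanSpace ℂ (Fin i)) = 2 * i - 1 + 1 := by
    have h1 := finrank_real_of_complex (EuclideanSpace ℂ (Fin i))
    rw [finrank_euclideanSpace_fin] at h1
    rw [show 2 * i - 1 + 1 = 2 * i by omega, ← h1]
  have : FiniteDimensional ℝ (EuclideanSpace ℂ (Fin i)) := by
    apply Module.finite_of_finrank_pos
    omega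
  exact ⟨sphereHomeo ((stdOrthonormalBasis ℝ (EuclideanSpace ℂ (Fin i))).reindex
    (finCongr hfr)).repr⟩

theorem sphere_pathConnected (N : ℕ) (hN : 1 ≤ N) :
    PathConnectedSpace (sphere (0 : EuclideanSpace ℝ (Fin (N + 1))) 1) := by
  rw [← isPathConnected_iff_pathConnectedSpace]
  apply isPathConnected_sphere _ _ zero_le_one
  rw [← Module.finrank_eq_rank, finrank_euclideanSpace_fin]
  exact_mod_cast (by omega : 1 < N + 1)

theorem sphere_homogeneous (N : ℕ) (x y : sphere (0 : EuclideanSpace ℝ (Fin (N + 1))) 1) :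
    ∃ A : sphere (0 : EuclideanSpace ℝ (Fin (N + 1))) 1 ≃ₜ
      sphere (0 : EuclideanSpace ℝ (Fin (N + 1))) 1, A x = y := by
  refine ⟨sphereHomeo (Submodule.reflection (ℝ ∙ (x.1 - y.1))ᗮ), Subtype.ext ?_⟩
  change Submodule.reflection (ℝ ∙ (x.1 - y.1))ᗮ x.1 = y.1
  apply Submodule.reflection_sub
  rw [mem_sphere_zero_iff_norm.mp x.2, mem_sphere_zero_iff_norm.mp y.2]

/-- **Module SPH-B.** -/
theorem serreLite (hAlg : PSS.AlgStatement) (hObs : ObsStatement)
    (hSph : ∀ N : ℕ, 1 ≤ N → ∀ x₀ : sphere (0 : EuclideanSpace ℝ (Fin (N + 1))) 1,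
      PSS.AlgSphere N (singP (sphere (0 : EuclideanSpace ℝ (Fin (N + 1))) 1) x₀)) :
    SerreLite := by
  intro i j hi hj
  obtain ⟨e⟩ := exists_sphHomeo i hi
  have hpc := sphere_pathConnected (2 * i - 1) (by omega)
  have hpc' : PathConnectedSpace (Sph i) := e.symm.surjective.pathConnectedSpace e.symm.continuous
  obtain ⟨x₀⟩ := hpc'.nonempty
  have hS : AlgSphere (2 * i - 1) (singP (Sph i) x₀) := by
    have h1 := AlgSphere.iso _ _ (singIso e.symm (e x₀)) (hSph (2 * i - 1) (by omega) (e x₀))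
    rwa [e.symm_apply_apply] at h1
  refine serre_aux hAlg hObs (Sph i) (2 * i - 1) ⟨i - 1, by omega⟩ x₀ hS (fun x => ?_) j hj
  obtain ⟨A, hA⟩ := sphere_homogeneous (2 * i - 1) (e x) (e x₀)
  refine ⟨(e.trans A).trans e.symm, ?_⟩
  change e.symm (A (e x)) = x₀
  rw [hA, e.symm_apply_apply]

end

end Pool.Agent.Lib.MP_904b2a_gt.H86
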