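import Pool.Agent.Lib.MP_904b2a_gt.H44.Bridge

/-!
# MP_904b2a_gt, module ALG (T1 = I2, helper86): the symmetric powers of an acyclic pointed
simplicial set are acyclic
-/

set_option autoImplicit false

open scoped BigOperators TensorProduct

namespace Pool.Agent.Lib.MP_904b2a_gt

noncomputable section

namespace H86

open Finset

/-- A simplicial group which is contractible in degrees `< a` has no homology there. -/
theorem hty_hz {T : SM} {a : ℕ} (c : T.Hty a) (k : ℕ) (hk : k < a) : T.HZ k := by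
  intro x hx
  cases k with
  | zero =>
    refine ⟨c.H 0 0 x, ?_⟩
    rw [SM.bd_apply, sum_range_succ, sum_range_one, c.e0 0 x hk, c.e1 0 x hk]
    simp
  | succ k =>
    refine ⟨∑ j ∈ range (k + 2), (-1 : ℤ) ^ j • c.H j (k + 1) x, ?_⟩
    have key := homotopy_sum (k + 1) (fun i j => T.d (k + 1) i (c.H j (k + 1) x))
      (fun i j => c.H j k (T.d k i x))
      (fun i j hij hj => c.h1 k i j x hk hij (by omega))
      (fun i j hij hi => c.h2 k i j x hk hij hi)
      (fun i hi => c.h3 k i x hk hi)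
    rw [c.e0 (k + 1) x hk, c.e1 (k + 1) x hk, sub_zero] at key
    have e2 : ∑ j ∈ range (k + 1), ∑ i ∈ range (k + 2), (-1 : ℤ) ^ (i + j) • c.H j k (T.d k i x)
        = 0 := by
      refine sum_eq_zero (fun j _ => ?_)
      have : ∑ i ∈ range (k + 2), (-1 : ℤ) ^ (i + j) • c.H j k (T.d k i x) =
          (-1 : ℤ) ^ j • c.H j k (T.bd k x) := by
        rw [SM.bd_apply, map_sum, smul_sum]
        refine sum_congr rfl (fun i _ => ?_)
        rw [map_zsmul, smul_smul, ← pow_add, add_comm j i]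
      rw [this, show T.bd k x = 0 from hx, map_zero, smul_zero]
    rw [e2, add_zero] at key
    rw [map_sum]
    refine Eq.trans ?_ key
    refine sum_congr rfl (fun j _ => ?_)
    rw [map_zsmul, SM.bd_apply, smul_sum]
    refine sum_congr rfl (fun i _ => ?_)
    rw [smul_smul, ← pow_add, add_comm j i]

theorem symMap_zero_of_homogeneous {B B' : Type} {p : ℕ} (hp : 1 ≤ p) {f : MvPolynomial B ℤ}
    (hf : f.IsHomogeneous p) : symMap (0 : (B →₀ ℤ) →ₗ[ℤ] (B' →₀ ℤ)) f = 0 := by
  have h1 : symMap (0 : (B →₀ ℤ) →ₗ[ℤ] (B' →₀ ℤ)) =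
      MvPolynomial.aeval (fun _ : B => (0 : MvPolynomial B' ℤ)) := by
    refine MvPolynomial.algHom_ext (fun b => ?_)
    rw [symMap_X, LinearMap.zero_apply, map_zero, MvPolynomial.aeval_X]
  rw [h1]
  have h2 : MvPolynomial.aeval (fun _ : B => (0 : MvPolynomial B' ℤ)) f =
      algebraMap ℤ _ (MvPolynomial.constantCoeff f) := MvPolynomial.aeval_zero' f
  rw [h2, MvPolynomial.constantCoeff_eq, hf.coeff_eq_zero, map_zero]
  rw [map_zero]
  omega

/-- The symmetric powers of a contraction. -/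
def symHty {K : PSS} {a : ℕ} (c : K.chain.Hty a) (p : ℕ) (hp : 1 ≤ p) : (K.symP p).Hty a := by
  -- the linear maps
  let φ : ∀ _ k : ℕ, (K.B k →₀ ℤ) →ₗ[ℤ] (K.B (k + 1) →₀ ℤ) := fun j k =>
    (show (K.B k →₀ ℤ) →+ (K.B (k + 1) →₀ ℤ) from c.H j k).toIntLinearMap
  have g1 : ∀ k i j, k + 1 < a → i ≤ j → j ≤ k →
      K.dZ (k + 1) i ∘ₗ φ (j + 1) (k + 1) = φ j k ∘ₗ K.dZ k i := fun k i j hk hij hj =>
    LinearMap.ext (fun x => c.h1 k i j x hk hij hj)
  have g2 : ∀ k i j, k + 1 < a → j < i → i ≤ k + 1 →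
      K.dZ (k + 1) (i + 1) ∘ₗ φ j (k + 1) = φ j k ∘ₗ K.dZ k i := fun k i j hk hij hi =>
    LinearMap.ext (fun x => c.h2 k i j x hk hij hi)
  have g3 : ∀ k i, k + 1 < a → i < k + 1 →
      K.dZ (k + 1) (i + 1) ∘ₗ φ (i + 1) (k + 1) = K.dZ (k + 1) (i + 1) ∘ₗ φ i (k + 1) :=
    fun k i hk hi => LinearMap.ext (fun x => c.h3 k i x hk hi)
  have g4 : ∀ k, k < a → K.dZ k 0 ∘ₗ φ 0 k = LinearMap.id := fun k hk =>
    LinearMap.ext (fun x => c.e0 k x hk)
  have g5 : ∀ k, k < a → K.dZ k (k + 1) ∘ₗ φ k k = 0 := fun k hk =>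
    LinearMap.ext (fun x => c.e1 k x hk)
  exact
    { H := fun j k => symPAdd p (φ j k)
      h1 := fun k i j x hk hij hj => Subtype.ext (by
        change symMap (K.dZ (k + 1) i) (symMap (φ (j + 1) (k + 1)) x.1) =
          symMap (φ j k) (symMap (K.dZ k i) x.1)
        rw [symMap_symMap, symMap_symMap, g1 k i j hk hij hj])
      h2 := fun k i j x hk hij hi => Subtype.ext (by
        change symMap (K.dZ (k + 1) (i + 1)) (symMap (φ j (k + 1)) x.1) =
          symMap (φ j k) (symMap (K.dZ k i) x.1)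
        rw [symMap_symMap, symMap_symMap, g2 k i j hk hij hi])
      h3 := fun k i x hk hi => Subtype.ext (by
        change symMap (K.dZ (k + 1) (i + 1)) (symMap (φ (i + 1) (k + 1)) x.1) =
          symMap (K.dZ (k + 1) (i + 1)) (symMap (φ i (k + 1)) x.1)
        rw [symMap_symMap, symMap_symMap, g3 k i hk hi])
      e0 := fun k x hk => Subtype.ext (by
        change symMap (K.dZ k 0) (symMap (φ 0 k) x.1) = x.1
        rw [symMap_symMap, g4 k hk, symMap_id]
        rfl)
      e1 := fun k x hk => Subtype.ext (by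
        change symMap (K.dZ k (k + 1)) (symMap (φ k k) x.1) = 0
        rw [symMap_symMap, g5 k hk]
        exact symMap_zero_of_homogeneous hp x.2) }

/-- **(T1 = I2)** The symmetric powers (of positive degree) of an acyclic pointed simplicial set
are acyclic. -/
theorem symP_hz {K : PSS} (h : K.Acyclic) {p : ℕ} (hp : 1 ≤ p) (k : ℕ) : (K.symP p).HZ k := by
  obtain ⟨c⟩ := SM.exists_hty K.chain (fun n => inferInstanceAs (Module.Free ℤ (K.B n →₀ ℤ)))
    (k + 1) (fun j _ => K.chain_acyclic h j)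
  exact hty_hz (symHty c p hp) k (Nat.lt_succ_self k)

theorem symP_acyclic {K : PSS} (h : K.Acyclic) {p : ℕ} (hp : 1 ≤ p) : (K.symP p).Acyclic :=
  fun k => symP_hz h hp k

/-- More generally: no homology of the chains in degrees `< a` implies no homology of the
symmetric powers in degrees `< a`. -/
theorem symP_hz_of_lt {K : PSS} {a : ℕ} (h : ∀ k, k < a → K.chain.HZ k) {p : ℕ} (hp : 1 ≤ p)
    (k : ℕ) (hk : k < a) : (K.symP p).HZ k := by
  obtain ⟨c⟩ := SM.exists_hty K.chain (fun n => inferInstanceAs (Module.Free ℤ (K.B n →₀ ℤ))) a h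
  exact hty_hz (symHty c p hp) k hk

end H86

end

end Pool.Agent.Lib.MP_904b2a_gt
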