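import Pool.Agent.Lib.MP_904b2a_gt.H49.AlgMain
import Pool.Agent.Lib.MP_904b2a_gt.H68.Obs
import Pool.Agent.Lib.MP_904b2a_gt.H1.SphA
import Pool.Agent.Lib.MP_904b2a_gt.H86.Serre

/-!
# MP_904b2a_gt: `SerreLite` without hypotheses (assembly of ALG, OBS, SPH-A, SPH-B)
-/

set_option autoImplicit false

namespace Pool.Agent.Lib.MP_904b2a_gt

/-- **`SerreLite`.** -/
theorem serreLite_main : SerreLite :=
  H86.serreLite algStatement H68.obsStatement (fun N hN x₀ => H1.algSphere_euclidean N hN x₀)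

end Pool.Agent.Lib.MP_904b2a_gt
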